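import Mathlib
import Pool.Agent.J4.H38.SR2.Fix1

/-! Project CH, piece LVL: a weight with a level of distribution and few excluded classes modulo the small primes.
The fundamental lemma for classes to large moduli. -/

set_option autoImplicit false

namespace Pool.Agent.J4.H90.CH

open Finset
open Pool.Agent.H373R2.T7
open Pool.Agent.J4.H38.SR2 (sum_inj2_le)

open Classical in
/-- the sum over one class -/
noncomputable def Scl (w : ℕ → ℝ) (M q b : ℕ) : ℝ := ∑ n ∈ (Icc 1 M).filter (fun n => n ≡ b [MOD q]), w n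

/-- the error in one class -/
noncomputable def er (w : ℕ → ℝ) (W0 : ℝ) (M q b : ℕ) : ℝ := |Scl w M q b - W0 / (Nat.totient q : ℝ)|

lemma mod_cop {b q : ℕ} (h : b.Coprime q) : (b % q).Coprime q := by
  have h1 := (Nat.mod_modEq b q).gcd_eq
  unfold Nat.Coprime at h ⊢
  rw [h1, h]

lemma ex_max (w : ℕ → ℝ) (W0 : ℝ) (M : ℕ) : ∃ h : ℕ → ℕ, (∀ q, (h q).Coprime q) ∧
    ∀ q, 1 ≤ q → ∀ b, b.Coprime q → er w W0 M q b ≤ er w W0 M q (h q) := by
  classical
  have key : ∀ q : ℕ, ∃ h : ℕ, h.Coprime q ∧ (1 ≤ q → ∀ b, b.Coprime q → er w W0 M q b ≤ er w W0 M q h) := by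
    intro q
    rcases Nat.eq_zero_or_pos q with hq | hq
    · exact ⟨1, Nat.coprime_one_left q, fun h => absurd h (by omega)⟩
    · have hne : ((range q).filter (fun b => b.Coprime q)).Nonempty :=
        ⟨1 % q, mem_filter.2 ⟨mem_range.2 (Nat.mod_lt _ hq), mod_cop (Nat.coprime_one_left q)⟩⟩
      obtain ⟨h, hh, hmax⟩ := exists_max_image _ (fun b => er w W0 M q b) hne
      refine ⟨h, (mem_filter.1 hh).2, fun _ b hb => ?_⟩
      have e : er w W0 M q b = er w W0 M q (b % q) := by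
        have e1 : Scl w M q b = Scl w M q (b % q) := by
          unfold Scl
          refine sum_congr (filter_congr fun n _ => ?_) fun _ _ => rfl
          have h1 := Nat.mod_modEq b q
          exact ⟨fun h => h.trans h1.symm, fun h => h.trans h1⟩
        unfold er
        rw [e1]
      rw [e]
      exact hmax _ (mem_filter.2 ⟨mem_range.2 (Nat.mod_lt _ hq), mod_cop hb⟩)
  choose h hh using key
  exact ⟨h, fun q => (hh q).1, fun q hq b hb => (hh q).2 hq b hb⟩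

/-- a product of different primes is squarefree -/
lemma sqf_prod (S : Finset ℕ) (hS : ∀ p ∈ S, p.Prime) : Squarefree (∏ p ∈ S, p) := by
  classical
  induction S using Finset.induction_on with
  | empty => simp
  | insert p S hp ih =>
    rw [prod_insert hp]
    have hpp := hS p (mem_insert_self _ _)
    have hS' : ∀ p' ∈ S, p'.Prime := fun p' h => hS p' (mem_insert_of_mem h)
    have hcop : Nat.Coprime p (∏ p ∈ S, p) := by
      refine Nat.Coprime.prod_right fun q hq => ?_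
      exact (Nat.coprime_primes hpp (hS' q hq)).2 fun h => hp (h ▸ hq)
    exact (Nat.squarefree_mul hcop).2 ⟨hpp.prime.squarefree, ih hS'⟩

open Classical in
/-- the classes of one modulus -/
lemma cls (w : ℕ → ℝ) (W0 : ℝ) (M : ℕ) (e : ℕ → ℝ)
    (he : ∀ q, 1 ≤ q → ∀ b, b.Coprime q → er w W0 M q b ≤ e q)
    (A : ℕ → ℕ → Prop) {c : ℕ} (hA : PerA A c) (S : Finset ℕ) (hS : ∀ p ∈ S, p.Prime) :
    |∑ n ∈ (Icc 1 M).filter (fun n => ∀ p ∈ S, ¬ p ∣ n ∧ A p n), w n -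
      W0 * ∏ p ∈ S, ((rhoA A p : ℝ) / (p - 1 : ℝ))| ≤ (c : ℝ) ^ S.card * e (∏ p ∈ S, p) := by
  obtain ⟨z, hz⟩ : ∃ z, z = ∏ p ∈ S, p := ⟨_, rfl⟩
  have hd1 : 1 ≤ ∏ p ∈ S, p := Nat.pos_of_ne_zero (prod_ne_zero_iff.2 fun p hp => (hS p hp).ne_zero)
  have hpd : ∀ p ∈ S, p ∣ ∏ p ∈ S, p := fun p hp => dvd_prod_of_mem _ hp
  have hSz : S ⊆ pz z := by
    intro p hp
    rw [mem_pz, hz]
    exact ⟨Nat.le_of_dvd hd1 (hpd p hp), hS p hp⟩
  obtain ⟨r, hr⟩ : ∃ r, r = S.card := ⟨_, rfl⟩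
  have hr' : S.card ≤ r := hr.ge
  have hcop : ∀ b ∈ LSA A z r (∏ p ∈ S, p), b.Coprime (∏ p ∈ S, p) := by
    intro b hb
    rw [LSA_eq A z r S hSz hr', mem_filter] at hb
    refine Nat.Coprime.prod_right fun p hp => ?_
    rw [Nat.coprime_comm]
    exact (Nat.Prime.coprime_iff_not_dvd (hS p hp)).2 (hb.2 p hp).1
  have h1 : ∑ n ∈ (Icc 1 M).filter (fun n => ∀ p ∈ S, ¬ p ∣ n ∧ A p n), w n =
      ∑ b ∈ LSA A z r (∏ p ∈ S, p), Scl w M (∏ p ∈ S, p) b := by
    obtain ⟨d, hd⟩ : ∃ d, d = ∏ p ∈ S, p := ⟨_, rfl⟩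
    rw [← hd] at hd1 hpd
    rw [← sum_fiberwise_of_maps_to (t := LSA A z r (∏ p ∈ S, p)) (g := fun n => n % d)]
    · apply sum_congr rfl
      intro b hb
      rw [LSA_eq A z r S hSz hr', ← hd, mem_filter, mem_range] at hb
      unfold Scl
      rw [← hd]
      apply sum_congr _ (fun _ _ => rfl)
      ext n
      rw [mem_filter, mem_filter, mem_filter]
      constructor
      · rintro ⟨⟨h1, h2⟩, h3⟩
        refine ⟨h1, ?_⟩
        unfold Nat.ModEq
        rw [h3, Nat.mod_eq_of_lt hb.1]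
      · rintro ⟨h1, h2⟩
        unfold Nat.ModEq at h2
        rw [Nat.mod_eq_of_lt hb.1] at h2
        refine ⟨⟨h1, fun p hp => ?_⟩, h2⟩
        obtain ⟨h3, hi⟩ := hb.2 p hp
        rw [← h2] at h3 hi
        exact ⟨fun h4 => h3 ((dvd_mod_iff n d p (hpd p hp)).2 h4), (hA.mod n d p (hpd p hp)).1 hi⟩
    · intro n hn
      rw [mem_filter] at hn
      rw [LSA_eq A z r S hSz hr', ← hd, mem_filter, mem_range]
      refine ⟨Nat.mod_lt _ hd1, fun p hp => ?_⟩
      obtain ⟨h3, hi⟩ := hn.2 p hp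
      exact ⟨fun h4 => h3 ((dvd_mod_iff n d p (hpd p hp)).1 h4), (hA.mod n d p (hpd p hp)).2 hi⟩
  have hcard : ((LSA A z r (∏ p ∈ S, p)).card : ℝ) = ∏ p ∈ S, (rhoA A p : ℝ) := by
    rw [LSA_card A hA z r S hSz hr']
    push_cast
    rfl
  have h2 : W0 * ∏ p ∈ S, ((rhoA A p : ℝ) / (p - 1 : ℝ)) =
      ∑ b ∈ LSA A z r (∏ p ∈ S, p), W0 / (Nat.totient (∏ p ∈ S, p) : ℝ) := by
    rw [sum_const, nsmul_eq_mul, hcard, totient_prod S hS, prod_div_distrib]
    push_cast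
    have h3 : ∏ p ∈ S, ((p - 1 : ℕ) : ℝ) = ∏ p ∈ S, ((p : ℝ) - 1) := by
      apply prod_congr rfl
      intro p hp
      rw [Nat.cast_sub (hS p hp).one_le]
      push_cast
      ring
    rw [h3]
    ring
  rw [h1, h2, ← sum_sub_distrib]
  refine (abs_sum_le_sum_abs _ _).trans ?_
  have h3 : ∀ b ∈ LSA A z r (∏ p ∈ S, p), |Scl w M (∏ p ∈ S, p) b - W0 / (Nat.totient (∏ p ∈ S, p) : ℝ)| ≤
      e (∏ p ∈ S, p) := fun b hb => he _ hd1 b (hcop b hb)
  refine (sum_le_sum h3).trans ?_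
  rw [sum_const, nsmul_eq_mul, hcard]
  have he0 : 0 ≤ e (∏ p ∈ S, p) :=
    (abs_nonneg _).trans (he (∏ p ∈ S, p) hd1 1 (Nat.coprime_one_left _))
  apply mul_le_mul_of_nonneg_right _ he0
  rw [← prod_const]
  exact prod_le_prod (fun _ _ => Nat.cast_nonneg _) fun p hp => by exact_mod_cast hA.few p (hS p hp)

/-- the conditions at the small primes and the class `a` at the large ones -/
def QC (Q : ℕ → ℕ → Prop) (y a p n : ℕ) : Prop := if p ≤ y then Q p n else n ≡ a [MOD p]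

lemma QC_small (Q : ℕ → ℕ → Prop) {y a p n : ℕ} (h : p ≤ y) : QC Q y a p n ↔ Q p n := by
  unfold QC; rw [if_pos h]

lemma QC_large (Q : ℕ → ℕ → Prop) {y a p n : ℕ} (h : ¬ p ≤ y) : QC Q y a p n ↔ n ≡ a [MOD p] := by
  unfold QC; rw [if_neg h]

lemma rhoA_QC_small (Q : ℕ → ℕ → Prop) {y a p : ℕ} (h : p ≤ y) : rhoA (QC Q y a) p = rhoA Q p := by
  classical
  unfold rhoA
  congr 1
  refine filter_congr fun r _ => ?_
  rw [QC_small Q h]

lemma rhoA_QC_large (Q : ℕ → ℕ → Prop) {y a p : ℕ} (hp : p.Prime) (h : ¬ p ≤ y) :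
    rhoA (QC Q y a) p ≤ 1 ∧ (¬ p ∣ a → rhoA (QC Q y a) p = 1) := by
  classical
  have hsub : (range p).filter (fun r => ¬ p ∣ r ∧ QC Q y a p r) ⊆ {a % p} := by
    intro r hr
    rw [mem_filter, mem_range, QC_large Q h] at hr
    rw [mem_singleton]
    have h1 := hr.2.2
    unfold Nat.ModEq at h1
    rwa [Nat.mod_eq_of_lt hr.1] at h1
  constructor
  · unfold rhoA
    exact (card_le_card hsub).trans (by simp)
  · intro hpa
    unfold rhoA
    rw [card_eq_one]
    refine ⟨a % p, ?_⟩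
    refine subset_antisymm ?_ ?_
    · convert hsub
    · intro r hr
      rw [mem_singleton] at hr
      subst hr
      rw [mem_filter, mem_range, QC_large Q h]
      refine ⟨Nat.mod_lt _ hp.pos, fun hd => hpa ?_, Nat.mod_modEq a p⟩
      exact (Nat.dvd_mod_iff (dvd_refl p)).1 hd

lemma QC_per {Q : ℕ → ℕ → Prop} {c y a : ℕ} (hQ : PerA Q c) (hc : 1 ≤ c) : PerA (QC Q y a) c := by
  constructor
  · intro p n
    by_cases h : p ≤ y
    · rw [QC_small Q h, QC_small Q h]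
      exact hQ.per p n
    · rw [QC_large Q h, QC_large Q h]
      have h1 := Nat.mod_modEq n p
      exact ⟨fun h2 => h1.trans h2, fun h2 => h1.symm.trans h2⟩
  · intro p hp
    by_cases h : p ≤ y
    · rw [rhoA_QC_small Q h]
      exact hQ.few p hp
    · exact (rhoA_QC_large Q hp h).1.trans hc

/-- two conditions which agree at the rough integers -/
lemma diff_w (w : ℕ → ℝ) (hw : ∀ n, 0 ≤ w n ∧ w n ≤ 1) (N2 y : ℕ) (hro : ∀ n, y < n → w n ≠ 0 → ∀ p ∈ pz y, ¬ p ∣ n)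
    (A B : ℕ → Prop) [DecidablePred A] [DecidablePred B] (h : ∀ n, (∀ p ∈ pz y, ¬ p ∣ n) → (A n ↔ B n)) :
    |∑ n ∈ (Icc 1 N2).filter A, w n - ∑ n ∈ (Icc 1 N2).filter B, w n| ≤ y := by
  rw [sum_filter, sum_filter, ← sum_sub_distrib]
  refine (abs_sum_le_sum_abs _ _).trans ?_
  have h7 : ∀ n ∈ Icc 1 N2, |(if A n then w n else 0) - (if B n then w n else 0)| ≤ if n ≤ y then (1 : ℝ) else 0 := by
    intro n _
    obtain ⟨h0, h1⟩ := hw n
    by_cases hn : n ≤ y
    · rw [if_pos hn, abs_le]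
      split_ifs <;> constructor <;> linarith
    · rw [if_neg hn]
      by_cases hwn : w n = 0
      · simp [hwn]
      · have h2 := h n (hro n (by omega) hwn)
        by_cases h3 : A n
        · rw [if_pos h3, if_pos (h2.1 h3), sub_self, abs_zero]
        · rw [if_neg h3, if_neg (fun h4 => h3 (h2.2 h4)), sub_self, abs_zero]
  refine (sum_le_sum h7).trans ?_
  rw [← sum_filter, sum_const, nsmul_eq_mul, mul_one]
  have h8 : (Icc 1 N2).filter (fun n => n ≤ y) ⊆ Icc 1 y := by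
    intro n hn
    rw [mem_filter, mem_Icc] at hn
    rw [mem_Icc]
    exact ⟨hn.1.1, hn.2⟩
  have h9 := card_le_card h8
  rw [Nat.card_Icc, Nat.add_sub_cancel] at h9
  exact_mod_cast h9

end Pool.Agent.J4.H90.CH
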