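import Mathlib
import Pool.Agent.J4.H90.CH.Lvl1

/-! Project CH, piece LVL: the core inequality. -/

set_option autoImplicit false

namespace Pool.Agent.J4.H90.CH

open Finset
open Pool.Agent.H373R2.T7
open Pool.Agent.J4.H38.SR2 (sum_inj2_le)

open Classical in
theorem core (c : ℕ) (hc : 1 ≤ c) : ∃ C0 : ℕ, 1 ≤ C0 ∧ ∀ b : ℕ, C0 ≤ b → ∀ y N2 M : ℕ,
    (C0 + c) + 3 ≤ y →
    ∀ (w : ℕ → ℝ) (W0 : ℝ), (∀ n, 0 ≤ w n ∧ w n ≤ 1) → 0 ≤ W0 →
    (∀ n, y < n → w n ≠ 0 → ∀ p ∈ pz y, ¬ p ∣ n) →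
    ∀ e : ℕ → ℝ, (∀ q, 0 ≤ e q) → (∀ q, 1 ≤ q → ∀ b, b.Coprime q → er w W0 N2 q b ≤ e q) →
    ∀ Q : ℕ → ℕ → Prop, PerA Q c → ∀ (r : ℕ → ℕ) (F : Finset ℕ),
    (∀ d ∈ F, 1 ≤ d ∧ d ≤ M ∧ Squarefree d ∧ (r d).Coprime d ∧ ∀ p ∈ d.primeFactors, y < p) →
    ∑ d ∈ F, |∑ n ∈ (Icc 1 N2).filter (fun n : ℕ => (∀ p ∈ pz y, ¬ p ∣ n ∧ ¬ Q p n) ∧ n ≡ r d [MOD d]), w n -
      W0 * (∏ p ∈ pz y, (1 - (rhoA Q p : ℝ) / (p - 1 : ℝ))) / (Nat.totient d : ℝ)| ≤
      (1 / 2 : ℝ) ^ b * (W0 * ∏ p ∈ pz y, (1 - (rhoA Q p : ℝ) / (p - 1 : ℝ))) * ∑ d ∈ F, 1 / (Nat.totient d : ℝ) +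
      F.card * y + ((JJ y : ℝ) + 2) *
        ∑ q ∈ (Icc 1 (M * ((∏ p ∈ pz (C0 + c), p) * (2 ^ 2 ^ JJ y) ^ (C0 * b)))).filter Squarefree,
          ((C0 + c : ℕ) : ℝ) ^ q.primeFactors.card * e q := by
  obtain ⟨C0, hC0, hFL⟩ := Pool.Agent.H20R2.fLem c
  refine ⟨C0, hC0, fun b hb y N2 M hy w W0 hw hW0 hro e he0 he Q hQ r F hF => ?_⟩
  set z0 := C0 + c with hz0
  set J := JJ y with hJ
  set D : ℕ := (2 ^ 2 ^ J) ^ (C0 * b) with hD
  set K0 : ℕ := ∏ p ∈ pz z0, p with hK0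
  set P : Finset ℕ := (pz y).filter (fun p => z0 < p) with hP
  have hyY : y < 2 ^ 2 ^ J := JJ_lt y
  have hPp : ∀ p ∈ P, p.Prime ∧ z0 < p ∧ p ≤ 2 ^ 2 ^ J := by
    intro p hp
    rw [hP, mem_filter] at hp
    exact ⟨(mem_pz.1 hp.1).2, hp.2, ((mem_pz.1 hp.1).1.trans hyY.le)⟩
  have hPy : ∀ p ∈ P, p.Prime ∧ p ≤ y := by
    intro p hp
    rw [hP, mem_filter] at hp
    exact ⟨(mem_pz.1 hp.1).2, (mem_pz.1 hp.1).1⟩
  have hpzy : pz y = pz z0 ∪ P := mid_split z0 y (by omega)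
  have hdisj : Disjoint (pz z0) P := mid_disj z0 y
  have hpz0 : ∀ p ∈ pz z0, p.Prime := fun p hp => (mem_pz.1 hp).2
  set A0 : ℝ := ∏ p ∈ pz z0, ((rhoA (RQ Q z0) p : ℝ) / (p - 1 : ℝ)) with hA0
  have hA00 : 0 ≤ A0 := by
    apply prod_nonneg
    intro p hp
    have hp2 : (2 : ℝ) ≤ p := by exact_mod_cast (hpz0 p hp).two_le
    exact div_nonneg (Nat.cast_nonneg _) (by linarith)
  set Pq : ℝ := ∏ p ∈ pz y, (1 - (rhoA Q p : ℝ) / (p - 1 : ℝ)) with hPq
  have f2 : A0 * ∏ p ∈ P, (1 - (rhoA Q p : ℝ) / (p - 1 : ℝ)) = Pq := by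
    rw [hPq, hpzy, prod_union hdisj]
    congr 1
    rw [hA0]
    apply prod_congr rfl
    intro p hp
    rw [rhoA_small Q z0 p (hpz0 p hp) (mem_pz.1 hp).1]
    have hp2 : (2 : ℝ) ≤ p := by exact_mod_cast (hpz0 p hp).two_le
    have hp3 : (p : ℝ) - 1 ≠ 0 := by linarith
    field_simp
  set f : ℕ → ℝ := fun q => if Squarefree q then (z0 : ℝ) ^ q.primeFactors.card * e q else 0 with hf
  have hf0 : ∀ q, 0 ≤ f q := by
    intro q
    simp only [hf]
    split_ifs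
    · exact mul_nonneg (by positivity) (he0 q)
    · exact le_rfl
  -- one modulus
  have one : ∀ d ∈ F, |∑ n ∈ (Icc 1 N2).filter (fun n : ℕ => (∀ p ∈ pz y, ¬ p ∣ n ∧ ¬ Q p n) ∧ n ≡ r d [MOD d]), w n -
      W0 * Pq / (Nat.totient d : ℝ)| ≤
      (1 / 2 : ℝ) ^ b * (W0 * Pq) * (1 / (Nat.totient d : ℝ)) + y +
      ((J : ℝ) + 2) * ∑ T ∈ P.powerset.filter (fun T : Finset ℕ => ∏ p ∈ T, p ≤ D),
        f (d * ∏ p ∈ pz z0 ∪ T, p) := by
    intro d hd
    obtain ⟨hd1, hdM, hsq, hcop, hdy⟩ := hF d hd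
    obtain ⟨a, ha⟩ : ∃ a, a = r d := ⟨_, rfl⟩
    rw [← ha] at hcop ⊢
    have hdp : ∀ p ∈ d.primeFactors, p.Prime := fun p hp => Nat.prime_of_mem_primeFactors hp
    have hdprod : ∏ p ∈ d.primeFactors, p = d := Nat.prod_primeFactors_of_squarefree hsq
    have hφ : (Nat.totient d : ℝ) = ∏ p ∈ d.primeFactors, ((p : ℝ) - 1) := by
      have h1 := totient_prod d.primeFactors hdp
      rw [hdprod] at h1
      rw [h1]
      push_cast
      refine prod_congr rfl fun p hp => ?_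
      rw [Nat.cast_sub (hdp p hp).one_le]
      push_cast
      ring
    have hpa : ∀ p ∈ d.primeFactors, ¬ p ∣ a := by
      intro p hp h
      exact Nat.not_coprime_of_dvd_of_dvd (hdp p hp).one_lt h (Nat.dvd_of_mem_primeFactors hp) hcop
    have hmod : ∀ n : ℕ, n ≡ a [MOD d] ↔ ∀ p ∈ d.primeFactors, n ≡ a [MOD p] := by
      intro n
      constructor
      · intro h p hp
        exact h.of_dvd (Nat.dvd_of_mem_primeFactors hp)
      · intro h
        rw [Nat.modEq_iff_dvd]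
        have h1 : ((∏ p ∈ d.primeFactors, p : ℕ) : ℤ) ∣ (a : ℤ) - n := by
          push_cast
          refine Finset.prod_dvd_of_coprime (fun p hp q hq hpq => ?_) fun p hp => ?_
          · have := (Nat.coprime_primes (hdp p hp) (hdp q hq)).2 hpq
            exact Nat.isCoprime_iff_coprime.2 this
          · exact Nat.modEq_iff_dvd.1 (h p hp)
        rwa [hdprod] at h1
    set Q' := QC Q y a with hQ'
    have hper : PerA Q' c := QC_per hQ hc
    have hperR : PerA (RQ Q' z0) z0 := RQ_per Q' hper z0 (by omega)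
    have hφ0 : (0 : ℝ) < (Nat.totient d : ℝ) := by exact_mod_cast Nat.totient_pos.2 (by omega)
    have key := hFL b J z0 P (fun p => (rhoA Q p : ℝ) / (p - 1 : ℝ)) hb (by omega) hPp (fun p hp => by
        have hp2 : (2 : ℝ) ≤ p := by exact_mod_cast (hPp p hp).1.two_le
        refine ⟨div_nonneg (Nat.cast_nonneg _) (by linarith), ?_⟩
        apply div_le_div_of_nonneg_right _ (by linarith)
        exact_mod_cast hQ.few p (hPp p hp).1)
      ((Icc 1 N2).filter (fun n => n ≡ a [MOD d] ∧ ∀ p ∈ pz z0, ¬ p ∣ n ∧ ¬ Q p n))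
      w (fun p n => ¬ p ∣ n ∧ Q p n) (W0 * A0 / (Nat.totient d : ℝ))
      (fun T => f (d * ∏ p ∈ pz z0 ∪ T, p))
      (fun n _ => (hw n).1) (by positivity) (by
        intro T hT hTD
        have hdT : Disjoint (pz z0) T := disjoint_of_subset_right hT hdisj
        have hTz : ∀ p ∈ T, ¬ p ≤ z0 := fun p hp => by have := (hPp p (hT hp)).2.1; omega
        have hTy : ∀ p ∈ T, p ≤ y := fun p hp => (hPy p (hT hp)).2
        have hSd : Disjoint (pz z0 ∪ T) d.primeFactors := by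
          rw [disjoint_left]
          intro p hp hp'
          have h1 := hdy p hp'
          rcases mem_union.1 hp with h | h
          · have := (mem_pz.1 h).1
            omega
          · have := hTy p h
            omega
        have hSp : ∀ p ∈ (pz z0 ∪ T) ∪ d.primeFactors, p.Prime := by
          intro p hp
          rcases mem_union.1 hp with h | h
          · rcases mem_union.1 h with h | h
            · exact (mem_pz.1 h).2
            · exact (hPp p (hT h)).1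
          · exact hdp p h
        have eprod : ∏ p ∈ (pz z0 ∪ T) ∪ d.primeFactors, p = d * ∏ p ∈ pz z0 ∪ T, p := by
          rw [prod_union hSd, hdprod, mul_comm]
        have h1 := cls w W0 N2 e he (RQ Q' z0) hperR ((pz z0 ∪ T) ∪ d.primeFactors) hSp
        rw [prod_union hSd, prod_union hdT, eprod] at h1
        have e1 : ∏ p ∈ pz z0, ((rhoA (RQ Q' z0) p : ℝ) / (p - 1 : ℝ)) = A0 := by
          rw [hA0]
          refine prod_congr rfl fun p hp => ?_
          have hpz := mem_pz.1 hp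
          rw [rhoA_small Q' z0 p hpz.2 hpz.1, rhoA_small Q z0 p hpz.2 hpz.1, hQ',
            rhoA_QC_small Q (by omega)]
        have e2 : ∏ p ∈ T, ((rhoA (RQ Q' z0) p : ℝ) / (p - 1 : ℝ)) = ∏ p ∈ T, ((rhoA Q p : ℝ) / (p - 1 : ℝ)) := by
          apply prod_congr rfl
          intro p hp
          rw [rhoA_large Q' z0 p (hTz p hp), hQ', rhoA_QC_small Q (hTy p hp)]
        have e3 : ∏ p ∈ d.primeFactors, ((rhoA (RQ Q' z0) p : ℝ) / (p - 1 : ℝ)) = 1 / (Nat.totient d : ℝ) := by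
          rw [hφ, ← prod_const_one (s := d.primeFactors) (M := ℝ), ← prod_div_distrib]
          refine prod_congr rfl fun p hp => ?_
          have h2 := hdy p hp
          rw [rhoA_large Q' z0 p (by omega), hQ', (rhoA_QC_large Q (hdp p hp) (by omega)).2 (hpa p hp), Nat.cast_one]
        have e4 : f (d * ∏ p ∈ pz z0 ∪ T, p) =
            (z0 : ℝ) ^ ((pz z0 ∪ T) ∪ d.primeFactors).card * e (d * ∏ p ∈ pz z0 ∪ T, p) := by
          have h2 := sqf_prod _ hSp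
          have h3 := primeFactors_prod' _ hSp
          rw [eprod] at h2 h3
          simp only [hf]
          rw [if_pos h2, h3]
        have e5 : ((Icc 1 N2).filter (fun n => n ≡ a [MOD d] ∧ ∀ p ∈ pz z0, ¬ p ∣ n ∧ ¬ Q p n)).filter
            (fun m => ∀ p ∈ T, ¬ p ∣ m ∧ Q p m) =
            (Icc 1 N2).filter (fun n : ℕ => ∀ p ∈ (pz z0 ∪ T) ∪ d.primeFactors, ¬ p ∣ n ∧ RQ Q' z0 p n) := by
          rw [filter_filter]
          apply filter_congr
          intro n _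
          constructor
          · rintro ⟨⟨h4, h5⟩, h6⟩ p hp
            rcases mem_union.1 hp with h | h
            · rcases mem_union.1 h with h | h
              · have h7 := (mem_pz.1 h).1
                refine ⟨(h5 p h).1, (RQ_small Q' z0 p n h7).2 fun h8 => (h5 p h).2 ?_⟩
                exact (QC_small Q (by omega)).1 h8
              · exact ⟨(h6 p h).1, (RQ_large Q' z0 p n (hTz p h)).2 ((QC_small Q (hTy p h)).2 (h6 p h).2)⟩
            · have h2 := hdy p h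
              have h7 : n ≡ a [MOD p] := (hmod n).1 h4 p h
              refine ⟨fun h8 => hpa p h ?_, (RQ_large Q' z0 p n (by omega)).2 ((QC_large Q (by omega)).2 h7)⟩
              exact (h7.dvd_iff (dvd_refl p)).1 h8
          · intro h5
            refine ⟨⟨?_, ?_⟩, ?_⟩
            · refine (hmod n).2 fun p hp => ?_
              have h2 := hdy p hp
              have h8 := (h5 p (mem_union_right _ hp)).2
              exact (QC_large Q (by omega)).1 ((RQ_large Q' z0 p n (by omega)).1 h8)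
            · intro p hp
              have h7 := (mem_pz.1 hp).1
              have h8 := h5 p (mem_union_left _ (mem_union_left _ hp))
              refine ⟨h8.1, fun h9 => (RQ_small Q' z0 p n h7).1 h8.2 ?_⟩
              exact (QC_small Q (by omega)).2 h9
            · intro p hp
              have h8 := h5 p (mem_union_left _ (mem_union_right _ hp))
              exact ⟨h8.1, (QC_small Q (hTy p hp)).1 ((RQ_large Q' z0 p n (hTz p hp)).1 h8.2)⟩
        have h1' : |∑ m ∈ ((Icc 1 N2).filter (fun n => n ≡ a [MOD d] ∧ ∀ p ∈ pz z0, ¬ p ∣ n ∧ ¬ Q p n)).filter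
            (fun m => ∀ p ∈ T, ¬ p ∣ m ∧ Q p m), w m -
            W0 * A0 / (Nat.totient d : ℝ) * ∏ p ∈ T, ((rhoA Q p : ℝ) / (p - 1 : ℝ))| ≤
            f (d * ∏ p ∈ pz z0 ∪ T, p) := by
          rw [e5, e4]
          refine le_trans (le_of_eq ?_) h1
          rw [e1, e2, e3]
          congr 2
          ring
        convert h1')
    have f3 : W0 * A0 / (Nat.totient d : ℝ) * ∏ p ∈ P, (1 - (rhoA Q p : ℝ) / (p - 1 : ℝ)) =
        W0 * Pq / (Nat.totient d : ℝ) := by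
      rw [← f2]
      ring
    rw [f3] at key
    have hdm := diff_w w hw N2 y hro (fun n => (∀ p ∈ pz y, ¬ p ∣ n ∧ ¬ Q p n) ∧ n ≡ a [MOD d])
      (fun n => (n ≡ a [MOD d] ∧ ∀ p ∈ pz z0, ¬ p ∣ n ∧ ¬ Q p n) ∧ ∀ p ∈ P, ¬ (¬ p ∣ n ∧ Q p n)) (by
        intro n hn
        constructor
        · rintro ⟨h, h4⟩
          refine ⟨⟨h4, fun p hp => ?_⟩, fun p hp => ?_⟩
          · have hp' : p ∈ pz y := by rw [hpzy]; exact mem_union_left _ hp
            exact h p hp'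
          · have hp' : p ∈ pz y := by rw [hpzy]; exact mem_union_right _ hp
            exact fun h1 => (h p hp').2 h1.2
        · rintro ⟨⟨h4, h1⟩, h2⟩
          refine ⟨fun p hp => ?_, h4⟩
          have hpn := hn p hp
          rw [hpzy] at hp
          rcases mem_union.1 hp with h | h
          · exact h1 p h
          · exact ⟨hpn, fun h3 => h2 p h ⟨hpn, h3⟩⟩)
    rw [← filter_filter (fun n => n ≡ a [MOD d] ∧ ∀ p ∈ pz z0, ¬ p ∣ n ∧ ¬ Q p n)
      (fun n => ∀ p ∈ P, ¬ (¬ p ∣ n ∧ Q p n))] at hdm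
    have key' : |∑ n ∈ ((Icc 1 N2).filter (fun n => n ≡ a [MOD d] ∧ ∀ p ∈ pz z0, ¬ p ∣ n ∧ ¬ Q p n)).filter
        (fun n => ∀ p ∈ P, ¬ (¬ p ∣ n ∧ Q p n)), w n - W0 * Pq / (Nat.totient d : ℝ)| ≤
        (1 / 2) ^ b * (W0 * Pq / (Nat.totient d : ℝ)) +
        ((J : ℝ) + 2) * ∑ T ∈ P.powerset.filter (fun T : Finset ℕ => ∏ p ∈ T, p ≤ D),
          f (d * ∏ p ∈ pz z0 ∪ T, p) := by
      convert key
    clear key
    obtain ⟨V0, hV0⟩ : ∃ V0, V0 = ∑ n ∈ (Icc 1 N2).filter (fun n : ℕ => (∀ p ∈ pz y, ¬ p ∣ n ∧ ¬ Q p n) ∧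
      n ≡ a [MOD d]), w n := ⟨_, rfl⟩
    obtain ⟨V1, hV1⟩ : ∃ V1, V1 = ∑ n ∈ ((Icc 1 N2).filter (fun n => n ≡ a [MOD d] ∧ ∀ p ∈ pz z0, ¬ p ∣ n ∧
      ¬ Q p n)).filter (fun n => ∀ p ∈ P, ¬ (¬ p ∣ n ∧ Q p n)), w n := ⟨_, rfl⟩
    rw [← hV1] at key'
    rw [← hV0]
    rw [← hV0, ← hV1] at hdm
    obtain ⟨Mn, hMn⟩ : ∃ Mn, Mn = W0 * Pq / (Nat.totient d : ℝ) := ⟨_, rfl⟩
    rw [← hMn] at key' ⊢
    have e : V0 - Mn = (V0 - V1) + (V1 - Mn) := by ring
    have e6 : (1 / 2 : ℝ) ^ b * (W0 * Pq) * (1 / (Nat.totient d : ℝ)) = (1 / 2) ^ b * Mn := by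
      rw [hMn]; ring
    rw [e, e6]
    have h4 := abs_add_le (V0 - V1) (V1 - Mn)
    linarith
  refine (sum_le_sum one).trans ?_
  rw [sum_add_distrib, sum_add_distrib, ← mul_sum, sum_const, nsmul_eq_mul, ← mul_sum]
  have hsum := sum_inj2_le F P (pz z0) y M hPy hpz0 hdisj
    (fun d hd => ⟨(hF d hd).1, (hF d hd).2.1, (hF d hd).2.2.2.2⟩) D f hf0
  have hsum2 : ∑ q ∈ Icc 1 (M * (K0 * D)), f q =
      ∑ q ∈ (Icc 1 (M * (K0 * D))).filter Squarefree, (z0 : ℝ) ^ q.primeFactors.card * e q := by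
    rw [sum_filter]
  rw [hsum2] at hsum
  have h3 := mul_le_mul_of_nonneg_left hsum (by positivity : (0 : ℝ) ≤ (J : ℝ) + 2)
  linarith

end Pool.Agent.J4.H90.CH
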