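import Mathlib
import Pool.Agent.J4.H90.CH.Lvl2

/-! Project CH, piece LVL: the trivial bound, and the weights of the error terms. -/

set_option autoImplicit false

namespace Pool.Agent.J4.H90.CH

open Finset
open Pool.Agent.H373R2.T7

lemma Scl_nonneg (w : ℕ → ℝ) (hw : ∀ n, 0 ≤ w n ∧ w n ≤ 1) (M q b : ℕ) : 0 ≤ Scl w M q b :=
  sum_nonneg fun n _ => (hw n).1

lemma Scl_le (w : ℕ → ℝ) (hw : ∀ n, 0 ≤ w n ∧ w n ≤ 1) (M q b : ℕ) (hq : 1 ≤ q) :
    Scl w M q b ≤ (M : ℝ) / q + 1 := by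
  classical
  have h1 : Scl w M q b ≤ (((Icc 1 M).filter (fun n => n ≡ b [MOD q])).card : ℝ) := by
    unfold Scl
    have h := sum_le_sum (s := (Icc 1 M).filter (fun n => n ≡ b [MOD q])) (f := w) (g := fun _ => (1 : ℝ))
      fun n _ => (hw n).2
    rw [sum_const, nsmul_eq_mul, mul_one] at h
    convert h
  have h2 := (abs_le.1 (count_class M q b hq)).2
  have h3 : (((Icc 1 M).filter (fun n => n ≡ b [MOD q])).card : ℝ) ≤ (M : ℝ) / q + 1 := by
    have h4 : (((Icc 1 M).filter (fun n => n ≡ b [MOD q])).card : ℝ) - M / q ≤ 1 := by convert h2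
    linarith
  exact h1.trans h3

/-- the trivial bound -/
lemma er_triv (w : ℕ → ℝ) (hw : ∀ n, 0 ≤ w n ∧ w n ≤ 1) (W0 : ℝ) (hW0 : 0 ≤ W0) (N : ℕ) (hWN : W0 ≤ 2 * N)
    (q b : ℕ) (hq : 1 ≤ q) (hqN : q ≤ N) : er w W0 (2 * N) q b ≤ 5 * N / (Nat.totient q : ℝ) := by
  have hq0 : (0 : ℝ) < q := by exact_mod_cast hq
  have hqN' : (q : ℝ) ≤ N := by exact_mod_cast hqN
  have hN0 : (0 : ℝ) < N := by linarith
  have hφ0 : (0 : ℝ) < (Nat.totient q : ℝ) := by exact_mod_cast Nat.totient_pos.2 (by omega)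
  have hφ : (Nat.totient q : ℝ) ≤ q := by exact_mod_cast Nat.totient_le q
  have h1 := Scl_le w hw (2 * N) q b hq
  have h2 := Scl_nonneg w hw (2 * N) q b
  have h3 : ((2 * N : ℕ) : ℝ) / q + 1 ≤ 3 * N / (Nat.totient q : ℝ) := by
    push_cast
    calc 2 * (N : ℝ) / q + 1 ≤ 2 * N / q + N / q := by
          have : (1 : ℝ) ≤ N / q := by rw [one_le_div hq0]; exact hqN'
          linarith
      _ = 3 * N / q := by ring
      _ ≤ 3 * N / (Nat.totient q : ℝ) := div_le_div_of_nonneg_left (by positivity) hφ0 hφ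
  have h4 : W0 / (Nat.totient q : ℝ) ≤ 2 * N / (Nat.totient q : ℝ) := div_le_div_of_nonneg_right hWN hφ0.le
  have h5 : 0 ≤ W0 / (Nat.totient q : ℝ) := by positivity
  have h6 : 3 * N / (Nat.totient q : ℝ) + 2 * N / (Nat.totient q : ℝ) = 5 * N / (Nat.totient q : ℝ) := by ring
  unfold er
  rw [abs_le]
  constructor
  · have h7 : 0 ≤ 3 * (N : ℝ) / (Nat.totient q : ℝ) := by positivity
    linarith
  · have h7 : 0 ≤ 2 * (N : ℝ) / (Nat.totient q : ℝ) := by positivity
    linarith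

/-- the weights of the error terms -/
lemma sum_split (z : ℝ) (hz : 0 ≤ z) (k : ℕ) (hk : ∀ Q : ℕ, ∑ e ∈ Icc 1 Q, (z ^ 2) ^ e.primeFactors.card /
      (Nat.totient e : ℝ) ≤ (1 + Real.log Q) ^ (2 ^ k))
    (e : ℕ → ℝ) (he0 : ∀ q, 0 ≤ e q) (A : ℝ) (hA : 0 ≤ A) (Qm : ℕ) (T : ℝ) (hT : 0 < T)
    (hle : ∀ q ∈ Icc 1 Qm, e q ≤ A / (Nat.totient q : ℝ)) :
    ∑ q ∈ (Icc 1 Qm).filter Squarefree, z ^ q.primeFactors.card * e q ≤
      T * ∑ q ∈ (Icc 1 Qm).filter Squarefree, e q + A / T * (1 + Real.log Qm) ^ (2 ^ k) := by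
  classical
  have h1 : ∀ q ∈ (Icc 1 Qm).filter Squarefree, z ^ q.primeFactors.card * e q ≤
      T * e q + A / T * ((z ^ 2) ^ q.primeFactors.card / (Nat.totient q : ℝ)) := by
    intro q hq
    have hq' := (mem_filter.1 hq).1
    have hφ0 : (0 : ℝ) < (Nat.totient q : ℝ) := by
      have := (mem_Icc.1 hq').1
      exact_mod_cast Nat.totient_pos.2 (by omega)
    have h2 := hle q hq'
    have h3 : 0 ≤ A / T * ((z ^ 2) ^ q.primeFactors.card / (Nat.totient q : ℝ)) := by positivity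
    rcases le_or_gt (z ^ q.primeFactors.card) T with h | h
    · have h4 := mul_le_mul_of_nonneg_right h (he0 q)
      linarith
    · have hTe : 0 ≤ T * e q := mul_nonneg hT.le (he0 q)
      have h5 : z ^ q.primeFactors.card * e q ≤
          A / T * ((z ^ 2) ^ q.primeFactors.card / (Nat.totient q : ℝ)) := by
        have e1 : (z ^ 2) ^ q.primeFactors.card = z ^ q.primeFactors.card * z ^ q.primeFactors.card := by
          rw [← pow_mul, mul_comm, pow_mul, pow_two]
        obtain ⟨u, hu⟩ : ∃ u, u = z ^ q.primeFactors.card := ⟨_, rfl⟩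
        rw [e1, ← hu]
        rw [← hu] at h
        have hu0 : 0 < u := hT.trans h
        calc u * e q ≤ u * (A / (Nat.totient q : ℝ)) := mul_le_mul_of_nonneg_left h2 hu0.le
          _ = (A * u / (Nat.totient q : ℝ)) * 1 := by ring
          _ ≤ (A * u / (Nat.totient q : ℝ)) * (u / T) := by
              apply mul_le_mul_of_nonneg_left _ (by positivity)
              rw [one_le_div hT]
              exact h.le
          _ = A / T * (u * u / (Nat.totient q : ℝ)) := by ring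
      linarith
  refine (sum_le_sum h1).trans ?_
  rw [sum_add_distrib, ← mul_sum, ← mul_sum]
  apply add_le_add le_rfl
  apply mul_le_mul_of_nonneg_left _ (by positivity)
  refine le_trans ?_ (hk Qm)
  exact sum_le_sum_of_subset_of_nonneg (filter_subset _ _) fun _ _ _ => by positivity

end Pool.Agent.J4.H90.CH
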