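import Mathlib
import Pool.Agent.J4.H90.CH.Lvl3
import Pool.Agent.J4.H38.SR2.Fix2
import Pool.Agent.J4.H38.CH.Defs

/-! Project CH, piece LVL: the total error over the moduli. -/

set_option autoImplicit false

namespace Pool.Agent.J4.H90.CH

open Finset Filter
open Pool.Agent.Y822
open Pool.Agent.J4.H38.SR
open Pool.Agent.J4.H38.SR2 (Pq Pq_bd)
open Pool.Agent.J4.H38.CH
open Pool.Agent.H373R2.T7

/-- the total error over the moduli -/
theorem lvl_sum (c : ℕ) (hc : 1 ≤ c) : ∃ C0 : ℕ, 1 ≤ C0 ∧ ∀ b : ℕ, C0 ≤ b → ∀ κ : ℝ, 0 < κ →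
    8000 * (C0 * b) * κ ≤ 1 → κ ≤ 1 / 100 → ∀ U : ℕ, ∃ U' : ℕ, ∀ᶠ N : ℕ in atTop, ∀ y : ℕ,
    (y : ℝ) ≤ Real.exp (κ * Real.log N) → Real.exp (κ * Real.log N) ≤ y + 1 →
    ∀ (w : ℕ → ℝ) (W0 : ℝ), (∀ n, 0 ≤ w n ∧ w n ≤ 1) → 0 ≤ W0 → W0 ≤ 2 * N →
    (∀ n, y < n → w n ≠ 0 → ∀ p ∈ pz y, ¬ p ∣ n) →
    Dist w W0 (2 * N) ⌊(N : ℝ) ^ (999 / 2000 : ℝ)⌋₊ (N / Real.log N ^ U') →
    ∀ Q : ℕ → ℕ → Prop, PerA Q c → ∀ (r : ℕ → ℕ) (F : Finset ℕ),
    (∀ d ∈ F, 1 ≤ d ∧ (d : ℝ) ≤ Real.exp (499 / 1000 * Real.log N) ∧ Squarefree d ∧ (r d).Coprime d ∧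
      ∀ p ∈ d.primeFactors, y < p) →
    ∑ d ∈ F, |Sq w Q N y (r d) d - W0 * Pq Q y / (Nat.totient d : ℝ)| ≤
      (1 / 2 : ℝ) ^ b * (W0 * Pq Q y) * ∑ d ∈ F, 1 / (Nat.totient d : ℝ) + N / Real.log N ^ U := by
  classical
  obtain ⟨C0, hC0, hcore⟩ := core c hc
  refine ⟨C0, hC0, fun b hb κ hκ hκb hκ1 U => ?_⟩
  have hCb : 1 ≤ C0 * b := Nat.mul_pos hC0 (by omega)
  obtain ⟨z0, hz0⟩ : ∃ z0, z0 = C0 + c := ⟨_, rfl⟩
  rw [← hz0] at hcore
  obtain ⟨K0, hK0⟩ : ∃ K0, K0 = ∏ p ∈ pz z0, p := ⟨_, rfl⟩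
  rw [← hK0] at hcore
  have hK01 : 1 ≤ K0 := by
    rw [hK0]
    exact Nat.pos_of_ne_zero (prod_ne_zero_iff.2 fun p hp => (mem_pz.1 hp).2.ne_zero)
  have hz1 : (1 : ℝ) ≤ ((z0 : ℝ) ^ 2) := by
    have : (1 : ℝ) ≤ (z0 : ℝ) := by exact_mod_cast (by omega : 1 ≤ z0)
    exact one_le_pow₀ this
  obtain ⟨k, hk⟩ := Pool.Agent.H398R2.BV.sum_pow_omega_div_totient ((z0 : ℝ) ^ 2) hz1
  obtain ⟨m, hm⟩ : ∃ m, m = 2 ^ k + U + 3 := ⟨_, rfl⟩
  refine ⟨m + (U + 3), ?_⟩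
  filter_upwards [eventually_ge_atTop 3, ev_logN (eventually_ge_atTop (max 200 (z0 : ℝ))),
    ev_logN (ev_pow_exp 0 (1 / 4000) K0 (by norm_num)),
    ev_logN (ev_pow_exp U (1 / 4) 4 (by norm_num)),
    ev_logN (eventually_ge_atTop ((z0 + 5) * (2 / κ)))] with N hN3 hLz e1 e3 e4
  intro y hya hyb w W0 hw hW0 hWN hro hDist Q hQ r F hF
  have hN0 : (0 : ℝ) < N := by positivity
  obtain ⟨L, hLd⟩ : ∃ L, L = Real.log N := ⟨_, rfl⟩
  rw [← hLd] at hLz e1 e3 e4 hya hyb hF hDist ⊢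
  have hL200 : 200 ≤ L := (le_max_left _ _).trans hLz
  have hL0 : 0 < L := by linarith
  have hL1 : 1 ≤ L := by linarith
  have hNe : (N : ℝ) = Real.exp L := by rw [hLd, Real.exp_log hN0]
  rw [pow_zero, mul_one] at e1
  have hya2 : ((z0 + 3 : ℕ) : ℝ) + 2 ≤ κ / 2 * Real.log N := by
    rw [← hLd]
    have h1 : (z0 : ℝ) + 5 = κ / 2 * ((z0 + 5) * (2 / κ)) := by field_simp
    have h2 := mul_le_mul_of_nonneg_left e4 (by positivity : 0 ≤ κ / 2)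
    push_cast
    linarith
  obtain ⟨_, _, y3, _, _, _⟩ := y_core (M := z0 + 3) hκ (by omega : 1 ≤ N) hya2
    (by rw [← hLd]; exact hya) (by rw [← hLd]; exact hyb)
  have hy2 : 2 ≤ y := by omega
  have hyN : y ≤ N := by
    have : (y : ℝ) ≤ N := by
      rw [hNe]
      refine hya.trans (Real.exp_le_exp.2 ?_)
      nlinarith
    exact_mod_cast this
  obtain ⟨M, hM⟩ : ∃ M : ℕ, M = ⌊Real.exp (499 / 1000 * L)⌋₊ := ⟨_, rfl⟩
  have hMr : (M : ℝ) ≤ Real.exp (499 / 1000 * L) := by rw [hM]; exact Nat.floor_le (Real.exp_pos _).le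
  obtain ⟨DD, hDD⟩ : ∃ DD, DD = M * (K0 * (2 ^ 2 ^ JJ y) ^ (C0 * b)) := ⟨_, rfl⟩
  have hDr : (((2 ^ 2 ^ JJ y) ^ (C0 * b) : ℕ) : ℝ) ≤ Real.exp (1 / 4000 * L) := by
    have h1 : (2 ^ 2 ^ JJ y) ^ (C0 * b) ≤ y ^ (2 * (C0 * b)) := by
      calc (2 ^ 2 ^ JJ y) ^ (C0 * b) ≤ (y ^ 2) ^ (C0 * b) := Nat.pow_le_pow_left (JJ_le y hy2) _
        _ = _ := by rw [← pow_mul]
    calc (((2 ^ 2 ^ JJ y) ^ (C0 * b) : ℕ) : ℝ) ≤ ((y ^ (2 * (C0 * b)) : ℕ) : ℝ) := by exact_mod_cast h1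
      _ = (y : ℝ) ^ (2 * (C0 * b)) := by push_cast; rfl
      _ ≤ (Real.exp (κ * L)) ^ (2 * (C0 * b)) := pow_le_pow_left₀ (Nat.cast_nonneg _) hya _
      _ = Real.exp ((2 * (C0 * b)) * (κ * L)) := by rw [← Real.exp_nat_mul]; push_cast; rfl
      _ ≤ Real.exp (1 / 4000 * L) := by
          refine Real.exp_le_exp.2 ?_
          have h2 := mul_le_mul_of_nonneg_right hκb hL0.le
          nlinarith
  have hDDr : (DD : ℝ) ≤ Real.exp (999 / 2000 * L) := by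
    rw [hDD]
    push_cast
    push_cast at hDr
    calc (M : ℝ) * (K0 * (2 ^ 2 ^ JJ y) ^ (C0 * b)) ≤
          Real.exp (499 / 1000 * L) * (Real.exp (1 / 4000 * L) * Real.exp (1 / 4000 * L)) := by gcongr
      _ = Real.exp (999 / 2000 * L) := by
          rw [← Real.exp_add, ← Real.exp_add]
          congr 1
          ring
  have hM1 : 1 ≤ M := by
    rw [hM]
    refine Nat.le_floor ?_
    rw [Nat.cast_one]
    exact Real.one_le_exp (by positivity)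
  have hDD1 : 1 ≤ DD := by
    rw [hDD]
    exact Nat.mul_pos hM1 (Nat.mul_pos hK01 (Nat.pow_pos (by positivity)))
  have hDDN : DD ≤ N := by
    have : (DD : ℝ) ≤ N := by
      refine hDDr.trans ?_
      rw [hNe]
      exact Real.exp_le_exp.2 (by linarith)
    exact_mod_cast this
  have hDDr1 : (1 : ℝ) ≤ DD := by exact_mod_cast hDD1
  have hlogDD : 1 + Real.log (DD : ℝ) ≤ L := by
    have h6 := Real.log_le_log (by positivity) hDDr
    rw [Real.log_exp] at h6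
    linarith
  have hlogDD0 : 0 ≤ 1 + Real.log (DD : ℝ) := by
    have := Real.log_nonneg hDDr1
    linarith
  have hDDQ : DD ≤ ⌊(N : ℝ) ^ (999 / 2000 : ℝ)⌋₊ := by
    refine Nat.le_floor (hDDr.trans (le_of_eq ?_))
    rw [Real.rpow_def_of_pos hN0, hLd, mul_comm]
  -- the worst classes
  obtain ⟨h, hh1, hh2⟩ := ex_max w W0 (2 * N)
  obtain ⟨e, he⟩ : ∃ e : ℕ → ℝ, e = fun q => er w W0 (2 * N) q (h q) := ⟨_, rfl⟩
  have he0 : ∀ q, 0 ≤ e q := fun q => by rw [he]; exact abs_nonneg _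
  have hEd : ∑ q ∈ (Icc 1 DD).filter Squarefree, e q ≤ N / L ^ (m + (U + 3)) := by
    refine le_trans ?_ (hDist h hh1)
    have h1 : ∑ q ∈ (Icc 1 DD).filter Squarefree, e q ≤
        ∑ q ∈ (Icc 1 ⌊(N : ℝ) ^ (999 / 2000 : ℝ)⌋₊).filter Squarefree, e q := by
      apply sum_le_sum_of_subset_of_nonneg
      · exact filter_subset_filter _ (Icc_subset_Icc le_rfl hDDQ)
      · intro q _ _
        exact he0 q
    refine h1.trans (le_of_eq ?_)
    refine sum_congr ?_ fun q _ => ?_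
    · ext q
      simp only [mem_filter]
    · rw [he]
      unfold er Scl
      congr 2
  have hF' : ∀ d ∈ F, 1 ≤ d ∧ d ≤ M ∧ Squarefree d ∧ (r d).Coprime d ∧ ∀ p ∈ d.primeFactors, y < p := by
    intro d hd
    obtain ⟨h1, h2, h3, h4⟩ := hF d hd
    refine ⟨h1, ?_, h3, h4⟩
    rw [hM]
    exact Nat.le_floor h2
  have hW := hcore b hb y (2 * N) M (by omega) w W0 hw hW0 hro e he0 (fun q hq b' hb' => by
    rw [he]; exact hh2 q hq b' hb') Q hQ r F hF'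
  rw [← hDD] at hW
  have hT0 : 0 < L ^ m := by positivity
  have hsp := sum_split (z0 : ℝ) (Nat.cast_nonneg _) k hk e he0 (5 * N) (by positivity) DD (L ^ m) hT0
    (fun q hq => by
      rw [he]
      have hq' := mem_Icc.1 hq
      exact er_triv w hw W0 hW0 N hWN q (h q) hq'.1 (by omega))
  have hFc : (F.card : ℝ) ≤ Real.exp (499 / 1000 * L) := by
    have h1 : F ⊆ Icc 1 M := fun d hd => mem_Icc.2 ⟨(hF' d hd).1, (hF' d hd).2.1⟩
    have h2 := card_le_card h1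
    rw [Nat.card_Icc, Nat.add_sub_cancel] at h2
    have h3 : (F.card : ℝ) ≤ M := by exact_mod_cast h2
    exact h3.trans hMr
  have hlog2 : (Nat.log 2 N : ℝ) + 1 ≤ 3 * L := by
    have h7 := natlog_le N (by omega)
    rw [← hLd] at h7
    linarith
  have t1 : (F.card : ℝ) * y ≤ 1 / 4 * (N / L ^ U) := by
    have h1 : (F.card : ℝ) * y ≤ Real.exp (499 / 1000 * L) * Real.exp (κ * L) := by gcongr
    have h2 : Real.exp (κ * L) ≤ Real.exp (1 / 100 * L) :=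
      Real.exp_le_exp.2 (mul_le_mul_of_nonneg_right hκ1 hL0.le)
    have h3 : Real.exp (499 / 1000 * L) * Real.exp (κ * L) ≤ Real.exp (3 / 4 * L) := by
      calc _ ≤ Real.exp (499 / 1000 * L) * Real.exp (1 / 100 * L) := by gcongr
        _ = Real.exp (509 / 1000 * L) := by
            rw [← Real.exp_add]
            congr 1
            ring
        _ ≤ _ := Real.exp_le_exp.2 (by linarith)
    refine (h1.trans h3).trans ?_
    rw [mul_div_assoc', le_div_iff₀ (by positivity), hNe]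
    calc Real.exp (3 / 4 * L) * L ^ U = 1 / 4 * (Real.exp (3 / 4 * L) * (4 * L ^ U)) := by ring
      _ ≤ 1 / 4 * (Real.exp (3 / 4 * L) * Real.exp (1 / 4 * L)) := by gcongr
      _ = 1 / 4 * Real.exp L := by
          rw [← Real.exp_add]
          congr 2
          ring
  have hJ : (JJ y : ℝ) + 2 ≤ 5 * L := by
    have h5 : JJ y ≤ Nat.log 2 N + 1 := by
      unfold JJ
      have := Nat.log_le_self 2 (Nat.log 2 y)
      have h6 : Nat.log 2 y ≤ Nat.log 2 N := Nat.log_mono_right hyN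
      omega
    have h6 : (JJ y : ℝ) ≤ Nat.log 2 N + 1 := by exact_mod_cast h5
    linarith
  have t2 : L ^ m * ∑ q ∈ (Icc 1 DD).filter Squarefree, e q + 5 * N / L ^ m * (1 + Real.log DD) ^ (2 ^ k) ≤
      6 * (N / L ^ (U + 3)) := by
    have h1 : L ^ m * ∑ q ∈ (Icc 1 DD).filter Squarefree, e q ≤ N / L ^ (U + 3) := by
      calc L ^ m * ∑ q ∈ (Icc 1 DD).filter Squarefree, e q ≤ L ^ m * (N / L ^ (m + (U + 3))) :=
            mul_le_mul_of_nonneg_left hEd hT0.le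
        _ = N / L ^ (U + 3) := by
            rw [pow_add L m]
            field_simp
    have h2 : 5 * N / L ^ m * (1 + Real.log DD) ^ (2 ^ k) ≤ 5 * (N / L ^ (U + 3)) := by
      calc 5 * N / L ^ m * (1 + Real.log DD) ^ (2 ^ k) ≤ 5 * N / L ^ m * L ^ (2 ^ k) := by gcongr
        _ = 5 * (N / L ^ (U + 3)) := by
            rw [hm, show 2 ^ k + U + 3 = 2 ^ k + (U + 3) by ring, pow_add L (2 ^ k)]
            field_simp
    linarith
  have t3 : ((JJ y : ℝ) + 2) * ∑ q ∈ (Icc 1 DD).filter Squarefree, (z0 : ℝ) ^ q.primeFactors.card * e q ≤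
      3 / 4 * (N / L ^ U) := by
    have h2 : 0 ≤ ∑ q ∈ (Icc 1 DD).filter Squarefree, (z0 : ℝ) ^ q.primeFactors.card * e q :=
      sum_nonneg fun q _ => mul_nonneg (by positivity) (he0 q)
    calc _ ≤ (5 * L) * (6 * (N / L ^ (U + 3))) := by
          apply mul_le_mul hJ (hsp.trans t2) h2 (by positivity)
      _ = 30 / L ^ 2 * (N / L ^ U) := by
          rw [pow_add L U 3]
          field_simp
          norm_num
      _ ≤ _ := by
          apply mul_le_mul_of_nonneg_right _ (by positivity)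
          rw [div_le_iff₀ (by positivity)]
          nlinarith
  have e5 : ∀ d, Sq w Q N y (r d) d = ∑ n ∈ (Icc 1 (2 * N)).filter (fun n : ℕ => (∀ p ∈ pz y, ¬ p ∣ n ∧ ¬ Q p n) ∧
      n ≡ r d [MOD d]), w n := fun d => by
    unfold Sq
    refine sum_congr ?_ fun _ _ => rfl
    ext n
    simp only [mem_filter]
  have e6 : ∑ d ∈ F, |Sq w Q N y (r d) d - W0 * Pq Q y / (Nat.totient d : ℝ)| =
      ∑ d ∈ F, |∑ n ∈ (Icc 1 (2 * N)).filter (fun n : ℕ => (∀ p ∈ pz y, ¬ p ∣ n ∧ ¬ Q p n) ∧ n ≡ r d [MOD d]), w n -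
      W0 * (∏ p ∈ pz y, (1 - (rhoA Q p : ℝ) / (p - 1 : ℝ))) / (Nat.totient d : ℝ)| := by
    refine sum_congr rfl fun d _ => ?_
    rw [e5 d]
    rfl
  rw [e6]
  have e7 : Pq Q y = ∏ p ∈ pz y, (1 - (rhoA Q p : ℝ) / (p - 1 : ℝ)) := rfl
  rw [← e7] at hW ⊢
  have hW' : ∑ d ∈ F, |∑ n ∈ (Icc 1 (2 * N)).filter (fun n : ℕ => (∀ p ∈ pz y, ¬ p ∣ n ∧ ¬ Q p n) ∧ n ≡ r d [MOD d]), w n -
      W0 * Pq Q y / (Nat.totient d : ℝ)| ≤
      (1 / 2 : ℝ) ^ b * (W0 * Pq Q y) * ∑ d ∈ F, 1 / (Nat.totient d : ℝ) +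
      F.card * y + ((JJ y : ℝ) + 2) *
        ∑ q ∈ (Icc 1 DD).filter Squarefree, (z0 : ℝ) ^ q.primeFactors.card * e q := by
    convert hW
  linarith

end Pool.Agent.J4.H90.CH
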