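import Mathlib
import Pool.Agent.J4.H90.CH.Lvl4
import Pool.Agent.J4.H38.SR2.Fix3

/-! Project CH, piece LVL: the moduli with a common factor, and the final form. -/

set_option autoImplicit false

namespace Pool.Agent.J4.H90.CH

open Finset Filter
open Pool.Agent.W23.DC (tt)
open Pool.Agent.Y822
open Pool.Agent.J4.H38.SR
open Pool.Agent.J4.H38.SR2 (Pq Pq_bd ex_b sum_phi lev_calc)
open Pool.Agent.J4.H38.CH
open Pool.Agent.H373R2.T7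

lemma mem_FC {N : ℕ} {κ : ℝ} {d : ℕ} : d ∈ FC N κ ↔ (1 ≤ d ∧ d ≤ ⌊(N : ℝ) ^ (499 / 1000 : ℝ)⌋₊) ∧
    Squarefree d ∧ ∀ p ∈ d.primeFactors, κ ≤ tt N p := by
  classical
  unfold FC
  rw [mem_filter, mem_Icc]

lemma FC_exp {N : ℕ} {κ : ℝ} {y : ℕ} (hN : 2 ≤ N) (hy : (y : ℝ) < (N : ℝ) ^ κ) : ∀ d ∈ FC N κ,
    1 ≤ d ∧ (d : ℝ) ≤ Real.exp (499 / 1000 * Real.log N) ∧ Squarefree d ∧ (∀ p ∈ d.primeFactors, y < p) ∧
      ∀ p ∈ d.primeFactors, (N : ℝ) ^ κ ≤ p := by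
  intro d hd
  rw [mem_FC] at hd
  have hN0 : (0 : ℝ) < N := by exact_mod_cast (by omega : 0 < N)
  have h5 : ∀ p ∈ d.primeFactors, (N : ℝ) ^ κ ≤ p := by
    intro p hp
    have h1 := hd.2.2 p hp
    rwa [Pool.Agent.W23.DC.le_tt_iff hN (Nat.prime_of_mem_primeFactors hp).pos] at h1
  refine ⟨hd.1.1, ?_, hd.2.1, fun p hp => ?_, h5⟩
  · have h1 : (d : ℝ) ≤ (⌊(N : ℝ) ^ (499 / 1000 : ℝ)⌋₊ : ℝ) := by exact_mod_cast hd.1.2
    refine h1.trans ((Nat.floor_le (by positivity)).trans (le_of_eq ?_))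
    rw [Real.rpow_def_of_pos hN0, mul_comm]
  · exact_mod_cast hy.trans_le (h5 p hp)

lemma om_le (a : ℕ) (ha : 1 ≤ a) : (a.primeFactors.card : ℝ) ≤ 2 * Real.log a := by
  have h1 : 2 ^ a.primeFactors.card ≤ a := by
    calc 2 ^ a.primeFactors.card ≤ ∏ p ∈ a.primeFactors, p :=
          Finset.pow_card_le_prod _ _ _ fun p hp => (Nat.prime_of_mem_primeFactors hp).two_le
      _ ≤ a := Nat.le_of_dvd ha (Nat.prod_primeFactors_dvd a)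
  have h2 : ((2 : ℝ) ^ a.primeFactors.card) ≤ a := by exact_mod_cast h1
  have h3 := Real.log_le_log (by positivity) h2
  rw [Real.log_pow] at h3
  have h4 := Real.log_two_gt_d9
  have h5 : (0 : ℝ) ≤ a.primeFactors.card := Nat.cast_nonneg _
  nlinarith

lemma harm (N : ℕ) : ∑ j ∈ Icc 1 N, 1 / (j : ℝ) ≤ 1 + Real.log N := by
  have h := harmonic_le_one_add_log N
  rw [harmonic_eq_sum_Icc] at h
  push_cast at h
  simpa only [one_div] using h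

lemma sum_mult (N p : ℕ) (hp : 1 ≤ p) : ∑ d ∈ (Icc 1 N).filter (fun d : ℕ => p ∣ d), 1 / (d : ℝ) ≤
    1 / (p : ℝ) * (1 + Real.log N) := by
  classical
  have hp0 : (0 : ℝ) < p := by exact_mod_cast hp
  have hsub : (Icc 1 N).filter (fun d => p ∣ d) ⊆ (Icc 1 N).image (fun j => p * j) := by
    intro d hd
    rw [mem_filter, mem_Icc] at hd
    obtain ⟨⟨h1, h2⟩, j, hj⟩ := hd
    rw [mem_image]
    refine ⟨j, mem_Icc.2 ⟨?_, ?_⟩, hj.symm⟩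
    · rcases Nat.eq_zero_or_pos j with h | h
      · rw [h, mul_zero] at hj
        omega
      · exact h
    · calc j = 1 * j := (one_mul j).symm
        _ ≤ p * j := Nat.mul_le_mul_right _ hp
        _ ≤ N := by omega
  calc ∑ d ∈ (Icc 1 N).filter (fun d : ℕ => p ∣ d), 1 / (d : ℝ) ≤
        ∑ d ∈ (Icc 1 N).image (fun j => p * j), 1 / (d : ℝ) :=
        sum_le_sum_of_subset_of_nonneg hsub fun _ _ _ => by positivity
    _ = ∑ j ∈ Icc 1 N, 1 / ((p * j : ℕ) : ℝ) := by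
        rw [sum_image]
        intro i _ j _ h
        exact Nat.eq_of_mul_eq_mul_left (by omega) h
    _ = 1 / (p : ℝ) * ∑ j ∈ Icc 1 N, 1 / (j : ℝ) := by
        rw [mul_sum]
        refine sum_congr rfl fun j _ => ?_
        push_cast
        rw [one_div_mul_one_div]
    _ ≤ _ := mul_le_mul_of_nonneg_left (harm N) (by positivity)

lemma Sq_bd (w : ℕ → ℝ) (hw : ∀ n, 0 ≤ w n ∧ w n ≤ 1) (Q : ℕ → ℕ → Prop) (N y a d : ℕ) (hd : 1 ≤ d) (hdN : d ≤ N) :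
    0 ≤ Sq w Q N y a d ∧ Sq w Q N y a d ≤ 3 * N * (1 / (d : ℝ)) := by
  classical
  have hd0 : (0 : ℝ) < d := by exact_mod_cast hd
  have hdN' : (d : ℝ) ≤ N := by exact_mod_cast hdN
  constructor
  · unfold Sq
    exact sum_nonneg fun n _ => (hw n).1
  · have h1 : Sq w Q N y a d ≤ Scl w (2 * N) d a := by
      unfold Sq Scl
      apply sum_le_sum_of_subset_of_nonneg
      · intro n hn
        rw [mem_filter] at hn ⊢
        exact ⟨hn.1, hn.2.2⟩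
      · intro n _ _
        exact (hw n).1
    have h2 := Scl_le w hw (2 * N) d a hd
    have h3 : (1 : ℝ) ≤ N * (1 / (d : ℝ)) := by
      rw [mul_one_div, one_le_div hd0]
      exact hdN'
    push_cast at h2
    have h4 : 2 * (N : ℝ) / d = 2 * (N * (1 / (d : ℝ))) := by ring
    rw [h4] at h2
    linarith

lemma Sq_one (w : ℕ → ℝ) (Q : ℕ → ℕ → Prop) (N y a : ℕ) : Sq w Q N y a 1 = Sq w Q N y 1 1 := by
  classical
  unfold Sq
  refine sum_congr (filter_congr fun n _ => ?_) fun _ _ => rfl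
  simp only [Nat.modEq_one]

/-- the moduli with a common factor -/
lemma bad_sum (w : ℕ → ℝ) (hw : ∀ n, 0 ≤ w n ∧ w n ≤ 1) (Q : ℕ → ℕ → Prop) (N y : ℕ) (κ : ℝ) (hN : 2 ≤ N)
    (F : Finset ℕ) (hF : ∀ d ∈ F, 1 ≤ d ∧ d ≤ N ∧ ∀ p ∈ d.primeFactors, (N : ℝ) ^ κ ≤ p)
    (r : ℕ → ℕ) (a : ℕ) (ha : 1 ≤ a) (haN : a ≤ N ^ 2)
    (hr : ∀ d p : ℕ, 1 ≤ d → p.Prime → p ∣ d → p ∣ r d → p ∣ a) (hbad : ∀ d ∈ F, ¬ (r d).Coprime d) :
    ∑ d ∈ F, |Sq w Q N y (r d) d - Sq w Q N y 1 1 * (1 / (d : ℝ))| ≤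
      12 * (N / (N : ℝ) ^ κ) * Real.log N * (1 + Real.log N) := by
  classical
  have hN0 : (0 : ℝ) < N := by exact_mod_cast (by omega : 0 < N)
  have hκ0 : 0 < (N : ℝ) ^ κ := Real.rpow_pos_of_pos hN0 _
  have hL0 : 0 ≤ Real.log N := Real.log_natCast_nonneg N
  have h1 : ∀ d ∈ F, |Sq w Q N y (r d) d - Sq w Q N y 1 1 * (1 / (d : ℝ))| ≤ 3 * N * (1 / (d : ℝ)) := by
    intro d hd
    obtain ⟨hd1, hdN, _⟩ := hF d hd
    have hd0 : (0 : ℝ) < d := by exact_mod_cast hd1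
    obtain ⟨s1, s2⟩ := Sq_bd w hw Q N y (r d) d hd1 hdN
    obtain ⟨s3, s4⟩ := Sq_bd w hw Q N y 1 1 le_rfl (by omega)
    rw [Nat.cast_one, one_div_one, mul_one] at s4
    have s5 : Sq w Q N y 1 1 * (1 / (d : ℝ)) ≤ 3 * N * (1 / (d : ℝ)) :=
      mul_le_mul_of_nonneg_right s4 (by positivity)
    have s6 : 0 ≤ Sq w Q N y 1 1 * (1 / (d : ℝ)) := mul_nonneg s3 (by positivity)
    rw [abs_le]
    constructor <;> linarith
  refine (sum_le_sum h1).trans ?_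
  -- a common prime
  have h2 : ∀ d ∈ F, ∃ p ∈ a.primeFactors.filter (fun p : ℕ => (N : ℝ) ^ κ ≤ (p : ℝ)), p ∣ d := by
    intro d hd
    obtain ⟨p, hp, hpr, hpd⟩ := Nat.Prime.not_coprime_iff_dvd.1 (hbad d hd)
    refine ⟨p, mem_filter.2 ⟨Nat.mem_primeFactors.2 ⟨hp, hr d p (hF d hd).1 hp hpd hpr, by omega⟩, ?_⟩, hpd⟩
    exact (hF d hd).2.2 p (Nat.mem_primeFactors.2 ⟨hp, hpd, by have := (hF d hd).1; omega⟩)
  have h3 : ∑ d ∈ F, 3 * (N : ℝ) * (1 / (d : ℝ)) ≤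
      ∑ p ∈ a.primeFactors.filter (fun p : ℕ => (N : ℝ) ^ κ ≤ (p : ℝ)),
        ∑ d ∈ (Icc 1 N).filter (fun d : ℕ => p ∣ d), 3 * (N : ℝ) * (1 / (d : ℝ)) := by
    have h4 : ∀ d ∈ F, 3 * (N : ℝ) * (1 / (d : ℝ)) ≤
        ∑ p ∈ a.primeFactors.filter (fun p : ℕ => (N : ℝ) ^ κ ≤ (p : ℝ)), if p ∣ d then 3 * (N : ℝ) * (1 / (d : ℝ)) else 0 := by
      intro d hd
      obtain ⟨p, hp, hpd⟩ := h2 d hd
      have h5 := single_le_sum (f := fun p => if p ∣ d then 3 * (N : ℝ) * (1 / (d : ℝ)) else 0)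
        (s := a.primeFactors.filter (fun p : ℕ => (N : ℝ) ^ κ ≤ (p : ℝ)))
        (fun p _ => by split_ifs <;> positivity) hp
      simp only [if_pos hpd] at h5
      exact h5
    refine (sum_le_sum h4).trans ?_
    rw [sum_comm]
    refine sum_le_sum fun p _ => ?_
    rw [← sum_filter]
    apply sum_le_sum_of_subset_of_nonneg
    · intro d hd
      rw [mem_filter] at hd
      obtain ⟨h6, h7, _⟩ := hF d hd.1
      exact mem_filter.2 ⟨mem_Icc.2 ⟨h6, h7⟩, hd.2⟩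
    · intro _ _ _
      positivity
  refine h3.trans ?_
  have h4 : ∀ p ∈ a.primeFactors.filter (fun p : ℕ => (N : ℝ) ^ κ ≤ (p : ℝ)),
      ∑ d ∈ (Icc 1 N).filter (fun d : ℕ => p ∣ d), 3 * (N : ℝ) * (1 / (d : ℝ)) ≤
        3 * (N / (N : ℝ) ^ κ) * (1 + Real.log N) := by
    intro p hp
    rw [mem_filter] at hp
    have hp1 := (Nat.prime_of_mem_primeFactors hp.1).pos
    have hp0 : (0 : ℝ) < p := by exact_mod_cast hp1
    rw [← mul_sum]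
    have h5 := sum_mult N p hp1
    have h6 : 1 / (p : ℝ) ≤ 1 / (N : ℝ) ^ κ := one_div_le_one_div_of_le hκ0 hp.2
    calc 3 * (N : ℝ) * ∑ d ∈ (Icc 1 N).filter (fun d : ℕ => p ∣ d), 1 / (d : ℝ) ≤
          3 * N * (1 / (p : ℝ) * (1 + Real.log N)) := mul_le_mul_of_nonneg_left h5 (by positivity)
      _ ≤ 3 * N * (1 / (N : ℝ) ^ κ * (1 + Real.log N)) := by gcongr
      _ = _ := by ring
  refine (sum_le_sum h4).trans ?_
  rw [sum_const, nsmul_eq_mul]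
  have h5 : ((a.primeFactors.filter (fun p : ℕ => (N : ℝ) ^ κ ≤ (p : ℝ))).card : ℝ) ≤ 4 * Real.log N := by
    have h6 : ((a.primeFactors.filter (fun p : ℕ => (N : ℝ) ^ κ ≤ (p : ℝ))).card : ℝ) ≤ (a.primeFactors.card : ℝ) := by
      exact_mod_cast card_le_card (filter_subset _ _)
    have h7 := om_le a ha
    have h8 : Real.log a ≤ 2 * Real.log N := by
      have h9 : (a : ℝ) ≤ (N : ℝ) ^ 2 := by exact_mod_cast haN
      have h10 := Real.log_le_log (by exact_mod_cast ha) h9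
      rw [Real.log_pow] at h10
      exact_mod_cast h10
    linarith
  calc ((a.primeFactors.filter (fun p : ℕ => (N : ℝ) ^ κ ≤ (p : ℝ))).card : ℝ) *
        (3 * (N / (N : ℝ) ^ κ) * (1 + Real.log N)) ≤
        (4 * Real.log N) * (3 * (N / (N : ℝ) ^ κ) * (1 + Real.log N)) :=
        mul_le_mul_of_nonneg_right h5 (by positivity)
    _ = _ := by ring

/-- **LVL**: the level of distribution, general classes -/
theorem lvlG (c : ℕ) (hc : 1 ≤ c) (c₁ : ℝ) (hc₁ : 0 < c₁) (hc₂ : c₁ ≤ 1) : ∃ κ₀ : ℝ, 0 < κ₀ ∧ ∀ κ : ℝ, 0 < κ → κ ≤ κ₀ →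
    ∀ U : ℕ, ∃ U' : ℕ, ∀ᶠ N : ℕ in atTop, ∀ y : ℕ, (y : ℝ) < (N : ℝ) ^ κ → (N : ℝ) ^ κ ≤ y + 1 →
    ∀ (w : ℕ → ℝ) (W0 : ℝ), (∀ n, 0 ≤ w n ∧ w n ≤ 1) → 0 ≤ W0 → W0 ≤ 2 * N →
    (∀ n, y < n → w n ≠ 0 → ∀ p ∈ pz y, ¬ p ∣ n) →
    Dist w W0 (2 * N) ⌊(N : ℝ) ^ (999 / 2000 : ℝ)⌋₊ (N / Real.log N ^ U') →
    ∀ Q : ℕ → ℕ → Prop, PerA Q c → ∀ (r : ℕ → ℕ) (a : ℕ), 1 ≤ a → a ≤ N ^ 2 →
    (∀ d p : ℕ, 1 ≤ d → p.Prime → p ∣ d → p ∣ r d → p ∣ a) →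
    ∑ d ∈ FC N κ, |Sq w Q N y (r d) d - Sq w Q N y 1 1 * (1 / (d : ℝ))| ≤
        c₁ * κ * (W0 * Pq Q y) + N / Real.log N ^ U ∧
      |Sq w Q N y 1 1 - W0 * Pq Q y| ≤ c₁ * κ * (W0 * Pq Q y) + N / Real.log N ^ U := by
  classical
  obtain ⟨C0, hC0, hsum⟩ := lvl_sum c hc
  obtain ⟨cE, hcE, hEE⟩ := EE_coreY
  have hC0r : (1 : ℝ) ≤ C0 := by exact_mod_cast hC0
  obtain ⟨t₀, ht₀, hb⟩ := ex_b (8000 * C0) (by positivity) (2 * (cE + 1) ^ 6 / c₁) (by positivity) 7 C0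
  refine ⟨min (1 / t₀) (1 / 100), lt_min (by positivity) (by norm_num), fun κ hκ hκ0 U => ?_⟩
  have hκt : κ ≤ 1 / t₀ := hκ0.trans (min_le_left _ _)
  have hκ1 : κ ≤ 1 / 100 := hκ0.trans (min_le_right _ _)
  have ht : t₀ ≤ 1 / κ := by
    rw [le_div_iff₀ hκ]
    rw [le_div_iff₀ (by linarith)] at hκt
    linarith
  obtain ⟨hb1, hb2⟩ := hb (1 / κ) ht
  obtain ⟨b, hbd⟩ : ∃ b, b = ⌊1 / κ / (8000 * (C0 : ℝ))⌋₊ := ⟨_, rfl⟩
  rw [← hbd] at hb1 hb2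
  have hbκ : 8000 * (C0 * b) * κ ≤ 1 := by
    have h1 : (b : ℝ) ≤ 1 / κ / (8000 * C0) := by rw [hbd]; exact Nat.floor_le (by positivity)
    rw [le_div_iff₀ (by positivity), le_div_iff₀ hκ] at h1
    linarith
  obtain ⟨E1, hE1⟩ : ∃ E1 : ℝ, E1 = ((cE + 1) / κ) ^ 3 := ⟨_, rfl⟩
  have hE11 : 1 ≤ E1 := by
    rw [hE1]
    refine one_le_pow₀ ?_
    rw [le_div_iff₀ hκ]
    linarith
  have hh : 2 * E1 ^ 2 * (1 / 2) ^ b ≤ c₁ * κ := by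
    have h1 : (1 / 2 : ℝ) ^ b * (2 * (cE + 1) ^ 6 / c₁ * (1 / κ) ^ 7) = (2 * E1 ^ 2 * (1 / 2) ^ b) / (c₁ * κ) := by
      have e6 : E1 ^ 2 = (cE + 1) ^ 6 / κ ^ 6 := by
        rw [hE1, div_pow, div_pow, ← pow_mul, ← pow_mul]
      rw [e6, div_pow 1 κ, one_pow]
      field_simp
    rw [h1, div_le_one (by positivity)] at hb2
    exact hb2
  obtain ⟨U', hs⟩ := hsum b hb1 κ hκ hbκ hκ1 (U + 2)
  refine ⟨U', ?_⟩
  have hκ' : 0 < 1 - κ := by linarith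
  filter_upwards [hs, eventually_ge_atTop 3, ev_logN (eventually_ge_atTop (max 1 (32 * E1 ^ 2))),
    ev_logN (eventually_ge_atTop ((4 + 1 / (c₁ * κ)) * (2 / κ))),
    ev_small U hκ (8 * E1) (by norm_num : (0 : ℝ) < 1 / 4),
    ev_small (U + 2) hκ 24 (by norm_num : (0 : ℝ) < 1 / 2)]
    with N hs hN3 hL1 hL2 hsm hsb
  intro y hy1 hy2 w W0 hw hW0 hWN hro hDist Q hQ r a ha haN hra
  have hN0 : (0 : ℝ) < N := by positivity
  obtain ⟨L, hLd⟩ : ∃ L, L = Real.log N := ⟨_, rfl⟩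
  have hrp : (N : ℝ) ^ κ = Real.exp (κ * Real.log N) := by
    rw [Real.rpow_def_of_pos hN0, mul_comm]
  have hya : (y : ℝ) ≤ Real.exp (κ * Real.log N) := by rw [← hrp]; exact hy1.le
  have hyb : Real.exp (κ * Real.log N) ≤ y + 1 := by rw [← hrp]; exact hy2
  have hL1' : 1 ≤ L := by rw [hLd]; exact (le_max_left _ _).trans hL1
  have hLZ : 32 * E1 ^ 2 ≤ L := by rw [hLd]; exact (le_max_right _ _).trans hL1
  have hL0 : 0 < L := by linarith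
  have hκL : 4 + 1 / (c₁ * κ) ≤ κ / 2 * Real.log N := by
    have h1 : 4 + 1 / (c₁ * κ) = κ / 2 * ((4 + 1 / (c₁ * κ)) * (2 / κ)) := by field_simp
    rw [h1]
    exact mul_le_mul_of_nonneg_left hL2 (by positivity)
  have hcκ : 0 < 1 / (c₁ * κ) := by positivity
  obtain ⟨_, _, y3, y4, y5, _⟩ := y_core (M := 2) hκ (by omega : 1 ≤ N) (by push_cast; linarith) hya hyb
  have hyc : 1 / (c₁ * κ) ≤ y := by
    have h1 : Real.log y ≤ y := (Real.log_le_sub_one_of_pos (by positivity)).trans (by linarith)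
    linarith
  have hy0 : (0 : ℝ) < y := by positivity
  obtain ⟨FG, hFG⟩ : ∃ FG, FG = (FC N κ).filter (fun d => (r d).Coprime d) := ⟨_, rfl⟩
  obtain ⟨FB, hFB⟩ : ∃ FB, FB = (FC N κ).filter (fun d => ¬ (r d).Coprime d) := ⟨_, rfl⟩
  have hFC := FC_exp (κ := κ) (by omega : 2 ≤ N) hy1
  have hs' := hs y hya hyb w W0 hw hW0 hWN hro hDist Q hQ r FG (by
    intro d hd
    rw [hFG, mem_filter] at hd
    obtain ⟨h1, h2, h3, h4, _⟩ := hFC d hd.1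
    exact ⟨h1, h2, h3, hd.2, h4⟩)
  obtain ⟨D, hD⟩ : ∃ D : ℕ, D = ⌊(N : ℝ) ^ (499 / 1000 : ℝ)⌋₊ := ⟨_, rfl⟩
  have hDN : D ≤ N := by
    have : (D : ℝ) ≤ N := by
      rw [hD]
      refine (Nat.floor_le (by positivity)).trans ?_
      calc (N : ℝ) ^ (499 / 1000 : ℝ) ≤ (N : ℝ) ^ (1 : ℝ) :=
            Real.rpow_le_rpow_of_exponent_le (by exact_mod_cast (by omega : 1 ≤ N)) (by norm_num)
        _ = N := Real.rpow_one _
    exact_mod_cast this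
  have hFS : FG ⊆ SD y D := by
    intro d hd
    rw [hFG, mem_filter] at hd
    have h1 := hFC d hd.1
    have h2 := mem_FC.1 hd.1
    rw [mem_SD, hD]
    refine ⟨h2.1, h2.2.1, fun p hp hpy hpd => ?_⟩
    have := h1.2.2.2.1 p (Nat.mem_primeFactors.2 ⟨hp, hpd, by omega⟩)
    omega
  obtain ⟨s1, s2, s3⟩ := sum_phi (by omega : 1 ≤ y) FG hFS
  have hEED : EE y D ≤ E1 := by
    refine (hEE κ hκ (by linarith) N hN3 (by linarith) y hya hyb D hDN).trans ?_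
    rw [hE1]
    gcongr
    linarith
  obtain ⟨hP0, hP1⟩ := Pq_bd Q y
  have h1F : 1 ∈ FG := by
    rw [hFG, mem_filter, mem_FC]
    refine ⟨⟨⟨le_rfl, Nat.le_floor ?_⟩, squarefree_one, fun p hp => by simp at hp⟩, Nat.coprime_one_right _⟩
    rw [Nat.cast_one]
    exact Real.one_le_rpow (by exact_mod_cast (by omega : 1 ≤ N)) (by norm_num)
  obtain ⟨T1, hT1⟩ : ∃ T1, T1 = ∑ d ∈ FG, |Sq w Q N y (r d) d - W0 * Pq Q y / (Nat.totient d : ℝ)| := ⟨_, rfl⟩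
  rw [← hT1, ← hLd] at hs'
  have hS1 : |Sq w Q N y 1 1 - W0 * Pq Q y| ≤ T1 := by
    have h := single_le_sum (f := fun d => |Sq w Q N y (r d) d - W0 * Pq Q y / (Nat.totient d : ℝ)|)
      (fun d _ => abs_nonneg _) h1F
    simp only [Nat.totient_one, Nat.cast_one, div_one] at h
    rw [Sq_one w Q N y (r 1)] at h
    rw [hT1]
    exact h
  obtain ⟨Z, hZ⟩ : ∃ Z : ℝ, Z = N / L ^ (U + 2) := ⟨_, rfl⟩
  have hZ0 : 0 ≤ Z := by rw [hZ]; positivity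
  have hT : T1 ≤ (1 / 2) ^ b * (W0 * Pq Q y) * E1 + Z := by
    refine hs'.trans (add_le_add ?_ (le_of_eq hZ.symm))
    apply mul_le_mul_of_nonneg_left (s1.trans hEED)
    positivity
  have hR : ∑ d ∈ FG, |Sq w Q N y (r d) d - Sq w Q N y 1 1 * (1 / (d : ℝ))| ≤
      T1 + W0 * Pq Q y * (E1 / y) + T1 * E1 := by
    have h1 : ∀ d ∈ FG, |Sq w Q N y (r d) d - Sq w Q N y 1 1 * (1 / (d : ℝ))| ≤
        |Sq w Q N y (r d) d - W0 * Pq Q y / (Nat.totient d : ℝ)| +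
        W0 * Pq Q y * |1 / (Nat.totient d : ℝ) - 1 / (d : ℝ)| + T1 * (1 / (d : ℝ)) := by
      intro d _
      have e : Sq w Q N y (r d) d - Sq w Q N y 1 1 * (1 / (d : ℝ)) =
          (Sq w Q N y (r d) d - W0 * Pq Q y / (Nat.totient d : ℝ)) +
          W0 * Pq Q y * (1 / (Nat.totient d : ℝ) - 1 / (d : ℝ)) -
          (Sq w Q N y 1 1 - W0 * Pq Q y) * (1 / (d : ℝ)) := by ring
      rw [e]
      refine (abs_sub _ _).trans (add_le_add ((abs_add_le _ _).trans (add_le_add le_rfl ?_)) ?_)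
      · rw [abs_mul, abs_of_nonneg (mul_nonneg hW0 hP0)]
      · rw [abs_mul, abs_of_nonneg (by positivity : (0 : ℝ) ≤ 1 / (d : ℝ))]
        exact mul_le_mul_of_nonneg_right hS1 (by positivity)
    refine (sum_le_sum h1).trans ?_
    rw [sum_add_distrib, sum_add_distrib, ← mul_sum, ← mul_sum, ← hT1]
    refine add_le_add (add_le_add le_rfl ?_) ?_
    · refine mul_le_mul_of_nonneg_left (s3.trans ?_) (mul_nonneg hW0 hP0)
      exact div_le_div_of_nonneg_right hEED hy0.le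
    · exact mul_le_mul_of_nonneg_left (s2.trans hEED) ((abs_nonneg _).trans hS1)
  have hYu : 1 / (y : ℝ) ≤ c₁ * κ := by
    rw [div_le_iff₀ hy0]
    rw [div_le_iff₀ (by positivity)] at hyc
    linarith
  have hfin : (8 * E1 ^ 2) * Z + 2 * E1 * W0 * (1 / (y : ℝ)) ≤ 1 / 2 * (N / L ^ U) := by
    have h1 : (8 * E1 ^ 2) * Z ≤ 1 / 4 * (N / L ^ U) := by
      have e : (8 * E1 ^ 2) * Z = (32 * E1 ^ 2) / L ^ 2 * (1 / 4 * (N / L ^ U)) := by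
        rw [hZ, pow_add]
        field_simp
        norm_num
      rw [e]
      refine mul_le_of_le_one_left (by positivity) ?_
      rw [div_le_one (by positivity)]
      nlinarith
    have h2 : 2 * E1 * W0 * (1 / (y : ℝ)) ≤ 1 / 4 * (N / L ^ U) := by
      rw [← hLd] at hsm
      refine le_trans ?_ hsm
      have h3 : (N : ℝ) * (1 / y) ≤ 2 * Real.exp ((1 - κ) * L) := by
        rw [mul_one_div, div_le_iff₀ hy0]
        have h3 : Real.exp ((1 - κ) * L) * Real.exp (κ * L) = N := by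
          rw [← Real.exp_add, hLd]
          ring_nf
          exact Real.exp_log hN0
        have h4 : 0 < Real.exp ((1 - κ) * L) := Real.exp_pos _
        rw [← hLd] at y5
        have h6 := mul_le_mul_of_nonneg_left y5 h4.le
        rw [← h3]
        linarith
      have h5 : W0 * (1 / (y : ℝ)) ≤ 4 * Real.exp ((1 - κ) * L) := by
        calc W0 * (1 / (y : ℝ)) ≤ 2 * N * (1 / (y : ℝ)) := mul_le_mul_of_nonneg_right hWN (by positivity)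
          _ = 2 * (N * (1 / y)) := by ring
          _ ≤ 2 * (2 * Real.exp ((1 - κ) * L)) := mul_le_mul_of_nonneg_left h3 (by norm_num)
          _ = _ := by ring
      have h4 := mul_le_mul_of_nonneg_left h5 (by positivity : 0 ≤ 2 * E1)
      linarith
    linarith
  have hcκ1 : c₁ * κ ≤ 1 := by nlinarith
  have hZab : |W0 - W0| ≤ Z := by rw [sub_self, abs_zero]; exact hZ0
  have hfinal := lev_calc (E := E1) (h := (1 / 2) ^ b) (N := W0) (L := 1 / 2 * (N / L ^ U)) (ψ := W0) (P := Pq Q y)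
    (Z := Z) (T1 := T1) (S1 := Sq w Q N y 1 1)
    (R := ∑ d ∈ FG, |Sq w Q N y (r d) d - Sq w Q N y 1 1 * (1 / (d : ℝ))|)
    (Y := y) (u := c₁ * κ) hE11 (by positivity) (pow_le_one₀ (by norm_num) (by norm_num)) hW0 hP0 hP1 hZ0 hZab
    hW0 (by positivity) hT hS1 hR hy0 hYu hh hfin hcκ1
  have hbadS := bad_sum w hw Q N y κ (by omega) FB (fun d hd => by
    rw [hFB, mem_filter] at hd
    have h1 := hFC d hd.1
    have h2 := (mem_FC.1 hd.1).1.2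
    rw [← hD] at h2
    exact ⟨h1.1, h2.trans hDN, h1.2.2.2.2⟩) r a ha haN hra (fun d hd => by
    rw [hFB, mem_filter] at hd
    exact hd.2)
  have hbad2 : 12 * (N / (N : ℝ) ^ κ) * Real.log N * (1 + Real.log N) ≤ 1 / 2 * (N / L ^ U) := by
    have h1 : (N : ℝ) / (N : ℝ) ^ κ = Real.exp ((1 - κ) * L) := by
      rw [hrp, ← hLd, div_eq_iff (Real.exp_pos _).ne', ← Real.exp_add, hLd]
      ring_nf
      exact (Real.exp_log hN0).symm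
    rw [h1, ← hLd]
    rw [← hLd] at hsb
    have h2 : 0 < Real.exp ((1 - κ) * L) := Real.exp_pos _
    calc 12 * Real.exp ((1 - κ) * L) * L * (1 + L) ≤ 12 * Real.exp ((1 - κ) * L) * L * (2 * L) := by
          apply mul_le_mul_of_nonneg_left _ (by positivity)
          linarith
      _ = (24 * Real.exp ((1 - κ) * L)) * L ^ 2 := by ring
      _ ≤ (1 / 2 * (N / L ^ (U + 2))) * L ^ 2 := mul_le_mul_of_nonneg_right hsb (by positivity)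
      _ = 1 / 2 * (N / L ^ U) := by
          rw [pow_add]
          field_simp
  have hNU : 0 ≤ (N : ℝ) / L ^ U := by positivity
  have hsplit : ∑ d ∈ FC N κ, |Sq w Q N y (r d) d - Sq w Q N y 1 1 * (1 / (d : ℝ))| =
      ∑ d ∈ FG, |Sq w Q N y (r d) d - Sq w Q N y 1 1 * (1 / (d : ℝ))| +
      ∑ d ∈ FB, |Sq w Q N y (r d) d - Sq w Q N y 1 1 * (1 / (d : ℝ))| := by
    rw [hFG, hFB, sum_filter_add_sum_filter_not]
  rw [← hLd, hsplit]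
  constructor
  · have h1 := hfinal.1
    have h2 := hbadS.trans hbad2
    linarith
  · have h1 := hfinal.2
    linarith

/-- **LVL**: the class `a` -/
theorem lvl (c : ℕ) (hc : 1 ≤ c) (c₁ : ℝ) (hc₁ : 0 < c₁) (hc₂ : c₁ ≤ 1) : ∃ κ₀ : ℝ, 0 < κ₀ ∧ ∀ κ : ℝ, 0 < κ → κ ≤ κ₀ →
    ∀ U : ℕ, ∃ U' : ℕ, ∀ᶠ N : ℕ in atTop, ∀ y : ℕ, (y : ℝ) < (N : ℝ) ^ κ → (N : ℝ) ^ κ ≤ y + 1 →
    ∀ (w : ℕ → ℝ) (W0 : ℝ), (∀ n, 0 ≤ w n ∧ w n ≤ 1) → 0 ≤ W0 → W0 ≤ 2 * N →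
    (∀ n, y < n → w n ≠ 0 → ∀ p ∈ pz y, ¬ p ∣ n) →
    Dist w W0 (2 * N) ⌊(N : ℝ) ^ (999 / 2000 : ℝ)⌋₊ (N / Real.log N ^ U') →
    ∀ Q : ℕ → ℕ → Prop, PerA Q c → ∀ a : ℕ, 1 ≤ a → a ≤ N ^ 2 →
    ∑ d ∈ FC N κ, |Sq w Q N y a d - Sq w Q N y a 1 * (1 / (d : ℝ))| ≤ c₁ * κ * (W0 * Pq Q y) + N / Real.log N ^ U ∧
      |Sq w Q N y a 1 - W0 * Pq Q y| ≤ c₁ * κ * (W0 * Pq Q y) + N / Real.log N ^ U := by
  obtain ⟨κ₀, hκ₀, h⟩ := lvlG c hc c₁ hc₁ hc₂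
  refine ⟨κ₀, hκ₀, fun κ hκ hκ' U => ?_⟩
  obtain ⟨U', h1⟩ := h κ hκ hκ' U
  refine ⟨U', ?_⟩
  filter_upwards [h1] with N h1
  intro y hy1 hy2 w W0 hw hW0 hWN hro hDist Q hQ a ha haN
  have h2 := h1 y hy1 hy2 w W0 hw hW0 hWN hro hDist Q hQ (fun _ => a) a ha haN (fun _ _ _ _ _ h => h)
  rw [Sq_one w Q N y a]
  exact h2

/-- **LVL**: the class `- a`, i.e. the condition `d ∣ n + a` -/
theorem lvlN (c : ℕ) (hc : 1 ≤ c) (c₁ : ℝ) (hc₁ : 0 < c₁) (hc₂ : c₁ ≤ 1) : ∃ κ₀ : ℝ, 0 < κ₀ ∧ ∀ κ : ℝ, 0 < κ → κ ≤ κ₀ →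
    ∀ U : ℕ, ∃ U' : ℕ, ∀ᶠ N : ℕ in atTop, ∀ y : ℕ, (y : ℝ) < (N : ℝ) ^ κ → (N : ℝ) ^ κ ≤ y + 1 →
    ∀ (w : ℕ → ℝ) (W0 : ℝ), (∀ n, 0 ≤ w n ∧ w n ≤ 1) → 0 ≤ W0 → W0 ≤ 2 * N →
    (∀ n, y < n → w n ≠ 0 → ∀ p ∈ pz y, ¬ p ∣ n) →
    Dist w W0 (2 * N) ⌊(N : ℝ) ^ (999 / 2000 : ℝ)⌋₊ (N / Real.log N ^ U') →
    ∀ Q : ℕ → ℕ → Prop, PerA Q c → ∀ a : ℕ, 1 ≤ a → a ≤ N ^ 2 →
    ∑ d ∈ FC N κ, |Sq w Q N y (a * (d - 1)) d - Sq w Q N y 1 1 * (1 / (d : ℝ))| ≤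
        c₁ * κ * (W0 * Pq Q y) + N / Real.log N ^ U ∧
      |Sq w Q N y 1 1 - W0 * Pq Q y| ≤ c₁ * κ * (W0 * Pq Q y) + N / Real.log N ^ U := by
  obtain ⟨κ₀, hκ₀, h⟩ := lvlG c hc c₁ hc₁ hc₂
  refine ⟨κ₀, hκ₀, fun κ hκ hκ' U => ?_⟩
  obtain ⟨U', h1⟩ := h κ hκ hκ' U
  refine ⟨U', ?_⟩
  filter_upwards [h1] with N h1
  intro y hy1 hy2 w W0 hw hW0 hWN hro hDist Q hQ a ha haN
  refine h1 y hy1 hy2 w W0 hw hW0 hWN hro hDist Q hQ (fun d => a * (d - 1)) a ha haN fun d p hd hp hpd hpr => ?_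
  rcases (Nat.Prime.dvd_mul hp).1 hpr with h2 | h2
  · exact h2
  · exfalso
    have h4 : p ∣ 1 := by
      have h5 := Nat.dvd_sub hpd h2
      have h6 : d - (d - 1) = 1 := by omega
      rwa [h6] at h5
    exact hp.one_lt.ne' (Nat.dvd_one.1 h4)

end Pool.Agent.J4.H90.CH
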